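import Pool.Agent.Y315.OP.Stm

/-!
# OP-ABS: eigenvectors from the min-max bound for a compact operator between Hilbert spaces
-/

set_option autoImplicit false

open MeasureTheory Filter Topology Module.End
open scoped ContDiff ENNReal

namespace Pool.Agent.Y980.OP

open Pool.Agent.Y315.OP

/-- a compact symmetric nonnegative operator has an eigenvector with eigenvalue its norm -/
theorem exists_top_eigenvector {H : Type} [NormedAddCommGroup H] [InnerProductSpace ℝ H]
    [CompleteSpace H] (S : H →L[ℝ] H) (hc : IsCompactOperator S)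
    (hs : (S : H →ₗ[ℝ] H).IsSymmetric) (hnn : ∀ x, 0 ≤ inner ℝ (S x) x) (hS : 0 < ‖S‖) :
    ∃ f : H, ‖f‖ = 1 ∧ S f = ‖S‖ • f := by
  have h1 := S.spectralRadius_eq_nnnorm hs.isSelfAdjoint
  have hne : (spectrum ℝ S).Nonempty := by
    by_contra hcon
    rw [Set.not_nonempty_iff_eq_empty] at hcon
    rw [spectralRadius, hcon] at h1
    simp only [Set.mem_empty_iff_false, not_false_eq_true, iSup_neg, iSup_bot] at h1
    have h2 : (‖S‖₊ : ℝ≥0∞) = 0 := by
      rw [← h1]; simp
    rw [ENNReal.coe_eq_zero, nnnorm_eq_zero] at h2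
    rw [h2] at hS
    simp at hS
  obtain ⟨lam, hlam, hlam2⟩ := spectrum.exists_nnnorm_eq_spectralRadius_of_nonempty hne
  rw [h1, ENNReal.coe_inj] at hlam2
  have h3 : |lam| = ‖S‖ := by
    have := congrArg NNReal.toReal hlam2
    simpa using this
  have hlam0 : lam ≠ 0 := by
    intro h0
    rw [h0, abs_zero] at h3
    linarith
  have hev : HasEigenvalue (S : Module.End ℝ H) lam :=
    (hc.hasEigenvalue_iff_mem_spectrum hlam0).mpr hlam
  obtain ⟨v, hv⟩ := hev.exists_hasEigenvector
  have hv0 : v ≠ 0 := hv.2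
  have hSv : S v = lam • v := hv.apply_eq_smul
  have hpos : 0 ≤ lam := by
    have h4 := hnn v
    rw [hSv, inner_smul_left] at h4
    have h5 : 0 < inner ℝ v v := real_inner_self_pos.mpr hv0
    have h6 : 0 ≤ lam * inner ℝ v v := by simpa using h4
    by_contra hneg
    push Not at hneg
    nlinarith
  have hlamS : lam = ‖S‖ := by rw [← h3, abs_of_nonneg hpos]
  have hvn : ‖v‖ ≠ 0 := norm_ne_zero_iff.mpr hv0
  refine ⟨(‖v‖)⁻¹ • v, ?_, ?_⟩
  · rw [norm_smul, norm_inv, norm_norm, inv_mul_cancel₀ hvn]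
  · rw [map_smul, hSv, hlamS, smul_comm]

/-- one more orthonormal eigenvector -/
theorem step {H K : Type} [NormedAddCommGroup H] [InnerProductSpace ℝ H] [CompleteSpace H]
    [NormedAddCommGroup K] [InnerProductSpace ℝ K] [CompleteSpace K] (J : H →L[ℝ] K)
    (hJ : IsCompactOperator J) (k : ℕ) (L : ℝ) (hL : 0 ≤ L)
    (hyp : ∀ L' : ℝ, L < L' → ∃ v : Fin k → H,
      (∀ c : Fin k → ℝ, c ≠ 0 → J (∑ i, c i • v i) ≠ 0) ∧
      ∀ c : Fin k → ℝ, ‖∑ i, c i • v i‖ ^ 2 ≤ (L' + 1) * ‖J (∑ i, c i • v i)‖ ^ 2)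
    (j : ℕ) (hjk : j < k) (f : Fin j → H) (μ : Fin j → ℝ) (hf : Orthonormal ℝ f)
    (hμ : ∀ i (v : H), inner ℝ (J (f i)) (J v) = μ i * inner ℝ (f i) v) :
    ∃ (g : H) (m : ℝ), ‖g‖ = 1 ∧ (∀ i, inner ℝ (f i) g = (0 : ℝ)) ∧ 1 / (L + 1) ≤ m ∧
      ∀ v : H, inner ℝ (J g) (J v) = m * inner ℝ g v := by
  classical
  set T : H →L[ℝ] H := (ContinuousLinearMap.adjoint J).comp J with hT
  have hTin : ∀ x y, inner ℝ (T x) y = inner ℝ (J x) (J y) := by
    intro x y
    rw [hT, ContinuousLinearMap.comp_apply, ContinuousLinearMap.adjoint_inner_left]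
  have hTc : IsCompactOperator T := by
    rw [hT]
    exact hJ.clm_comp (ContinuousLinearMap.adjoint J)
  have hTs : (T : H →ₗ[ℝ] H).IsSymmetric := by
    intro x y
    have e1 : inner ℝ ((T : H →ₗ[ℝ] H) x) y = inner ℝ (J x) (J y) := hTin x y
    have e2 : inner ℝ x ((T : H →ₗ[ℝ] H) y) = inner ℝ (J x) (J y) := by
      rw [real_inner_comm]
      have := hTin y x
      rw [real_inner_comm (J y) (J x)]
      exact this
    rw [e1, e2]
  set W : Submodule ℝ H := (Submodule.span ℝ (Set.range f))ᗮ with hW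
  have hmemW : ∀ x : H, x ∈ W ↔ ∀ i, inner ℝ (f i) x = (0 : ℝ) := by
    intro x
    rw [hW, Submodule.mem_orthogonal]
    constructor
    · intro h i
      exact h (f i) (Submodule.subset_span ⟨i, rfl⟩)
    · intro h u hu
      induction hu using Submodule.span_induction with
      | mem x hx =>
        obtain ⟨i, rfl⟩ := hx
        exact h i
      | zero => exact inner_zero_left _
      | add a b _ _ ha hb => rw [inner_add_left, ha, hb, add_zero]
      | smul a b _ hb => rw [inner_smul_left, hb, mul_zero]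
  have hinv : ∀ x ∈ W, T x ∈ W := by
    intro x hx
    rw [hmemW] at hx ⊢
    intro i
    rw [real_inner_comm, hTin, real_inner_comm, hμ i x, hx i, mul_zero]
  let S : W →L[ℝ] W := T.restrict hinv
  have hSval : ∀ x : W, ((S x : W) : H) = T (x : H) := fun x => rfl
  have hSc : IsCompactOperator S := hTc.restrict' hinv
  have hSs : (S : W →ₗ[ℝ] W).IsSymmetric := hTs.restrict_invariant hinv
  have hSnn : ∀ x : W, 0 ≤ inner ℝ (S x) x := by
    intro x
    rw [Submodule.coe_inner, hSval, hTin]
    exact real_inner_self_nonneg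
  have hbound : ∀ x : W, ‖J (x : H)‖ ^ 2 ≤ ‖S‖ * ‖(x : H)‖ ^ 2 := by
    intro x
    have e1 : ‖J (x : H)‖ ^ 2 = inner ℝ (S x) x := by
      rw [Submodule.coe_inner, hSval, hTin, real_inner_self_eq_norm_sq]
    rw [e1]
    calc inner ℝ (S x) x ≤ ‖S x‖ * ‖x‖ := real_inner_le_norm _ _
      _ ≤ (‖S‖ * ‖x‖) * ‖x‖ := by
          gcongr
          exact S.le_opNorm x
      _ = ‖S‖ * ‖(x : H)‖ ^ 2 := by
          rw [Submodule.norm_coe]; ring
  have hkey : ∀ L' : ℝ, L < L' → 1 ≤ (L' + 1) * ‖S‖ := by
    intro L' hL'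
    obtain ⟨v, hv1, hv2⟩ := hyp L' hL'
    let A : (Fin k → ℝ) →ₗ[ℝ] (Fin j → ℝ) :=
      { toFun := fun c i => inner ℝ (f i) (∑ l, c l • v l)
        map_add' := by
          intro a b
          ext i
          simp only [Pi.add_apply, add_smul, Finset.sum_add_distrib, inner_add_right]
        map_smul' := by
          intro a b
          ext i
          simp only [Pi.smul_apply, smul_eq_mul, RingHom.id_apply, mul_smul, ← Finset.smul_sum,
            inner_smul_right] }
    have hker : LinearMap.ker A ≠ ⊥ := by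
      apply LinearMap.ker_ne_bot_of_finrank_lt
      simp [hjk]
    obtain ⟨c, hcA, hc0⟩ := (Submodule.ne_bot_iff _).mp hker
    set u : H := ∑ l, c l • v l with hu
    have huW : u ∈ W := by
      rw [hmemW]
      intro i
      have := congrFun (LinearMap.mem_ker.mp hcA) i
      exact this
    have h1 := hv1 c hc0
    have h2 := hv2 c
    rw [← hu] at h1 h2
    have h3 := hbound ⟨u, huW⟩
    simp only at h3
    have hJu : 0 < ‖J u‖ ^ 2 := by
      have := norm_pos_iff.mpr h1
      positivity
    have hL1 : 0 < L' + 1 := by linarith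
    have hSn : 0 ≤ ‖S‖ := ContinuousLinearMap.opNorm_nonneg S
    by_contra hcon
    push Not at hcon
    have h4 : ‖u‖ ^ 2 ≤ (L' + 1) * (‖S‖ * ‖u‖ ^ 2) :=
      h2.trans (mul_le_mul_of_nonneg_left h3 hL1.le)
    have hu0 : 0 < ‖u‖ ^ 2 := by
      have hune : u ≠ 0 := by
        intro h0
        rw [h0, map_zero] at h1
        exact h1 rfl
      have := norm_pos_iff.mpr hune
      positivity
    nlinarith
  have hSpos : 1 / (L + 1) ≤ ‖S‖ := by
    have hL1 : 0 < L + 1 := by linarith
    rw [div_le_iff₀ hL1]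
    by_contra hcon
    push Not at hcon
    have hSn : 0 ≤ ‖S‖ := ContinuousLinearMap.opNorm_nonneg S
    have h1 := hkey (L + (1 - ‖S‖ * (L + 1)) / (2 * (‖S‖ + 1))) (by
      have : 0 < (1 - ‖S‖ * (L + 1)) / (2 * (‖S‖ + 1)) := by
        apply div_pos
        · linarith
        · linarith
      linarith)
    have h2 : (L + (1 - ‖S‖ * (L + 1)) / (2 * (‖S‖ + 1)) + 1) * ‖S‖ =
        ‖S‖ * (L + 1) + (1 - ‖S‖ * (L + 1)) * (‖S‖ / (2 * (‖S‖ + 1))) := by
      field_simp
      ring
    rw [h2] at h1
    have h3 : ‖S‖ / (2 * (‖S‖ + 1)) < 1 := by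
      rw [div_lt_one (by linarith)]
      linarith
    nlinarith
  have hSpos' : 0 < ‖S‖ := by
    have : 0 < 1 / (L + 1) := by
      have hL1 : 0 < L + 1 := by linarith
      positivity
    linarith
  have : CompleteSpace W := by
    rw [hW]
    infer_instance
  obtain ⟨g, hg1, hg2⟩ := exists_top_eigenvector S hSc hSs hSnn hSpos'
  refine ⟨(g : H), ‖S‖, ?_, ?_, hSpos, ?_⟩
  · rw [Submodule.norm_coe]; exact hg1
  · exact (hmemW _).mp g.2
  · intro v
    rw [← hTin, ← hSval, hg2]
    rw [Submodule.coe_smul, inner_smul_left]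
    rfl

/-- **OP-ABS** -/
theorem abs : S_ABS := by
  intro H K _ _ _ _ _ _ J hJ k L hL hyp
  have main : ∀ j : ℕ, j ≤ k → ∃ (f : Fin j → H) (μ : Fin j → ℝ), Orthonormal ℝ f ∧
      (∀ i, 1 / (L + 1) ≤ μ i) ∧
      ∀ i (v : H), inner ℝ (J (f i)) (J v) = μ i * inner ℝ (f i) v := by
    intro j
    induction j with
    | zero =>
      intro _
      exact ⟨Fin.elim0, Fin.elim0, ⟨fun i => i.elim0, fun i => i.elim0⟩, fun i => i.elim0,
        fun i => i.elim0⟩
    | succ j ih =>
      intro hj
      obtain ⟨f, μ, hf, hμ1, hμ2⟩ := ih (by omega)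
      obtain ⟨g, m, hg1, hg2, hm, hg3⟩ := step J hJ k L hL hyp j (by omega) f μ hf hμ2
      refine ⟨Fin.snoc f g, Fin.snoc μ m, ?_, ?_, ?_⟩
      · constructor
        · intro i
          refine Fin.lastCases ?_ (fun i => ?_) i
          · simpa using hg1
          · simpa using hf.1 i
        · intro a b
          refine Fin.lastCases ?_ (fun a => ?_) a
          · refine Fin.lastCases ?_ (fun b => ?_) b
            · intro h; exact absurd rfl h
            · intro _
              simp only [Fin.snoc_last, Fin.snoc_castSucc]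
              rw [real_inner_comm]
              exact hg2 b
          · refine Fin.lastCases ?_ (fun b => ?_) b
            · intro _
              simp only [Fin.snoc_last, Fin.snoc_castSucc]
              exact hg2 a
            · intro h
              simp only [Fin.snoc_castSucc]
              apply hf.2
              intro hab
              exact h (by rw [hab])
      · intro i
        refine Fin.lastCases ?_ (fun i => ?_) i
        · simpa using hm
        · simpa using hμ1 i
      · intro i v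
        refine Fin.lastCases ?_ (fun i => ?_) i
        · simpa using hg3 v
        · simpa using hμ2 i v
  obtain ⟨f, μ, hf, hμ1, hμ2⟩ := main k le_rfl
  have hL1 : 0 < L + 1 := by linarith
  have hμpos : ∀ i, 0 < μ i := fun i => lt_of_lt_of_le (by positivity) (hμ1 i)
  refine ⟨fun i => (Real.sqrt (μ i))⁻¹ • f i, fun i => 1 / μ i - 1, ?_, ?_, ?_⟩
  · intro i j
    rw [map_smul, map_smul, inner_smul_left, inner_smul_right, hμ2]
    have hs1 : Real.sqrt (μ i) ≠ 0 := (Real.sqrt_pos.mpr (hμpos i)).ne'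
    by_cases hij : i = j
    · subst hij
      rw [if_pos rfl, real_inner_self_eq_norm_sq, hf.1 i]
      have hsq := Real.mul_self_sqrt (hμpos i).le
      simp only [conj_trivial]
      field_simp
      nlinarith
    · rw [if_neg hij, hf.2 hij]
      simp
  · intro i
    have h1 : 1 / μ i ≤ L + 1 := by
      rw [div_le_iff₀ (hμpos i)]
      have := hμ1 i
      rw [div_le_iff₀ hL1] at this
      linarith
    simp only
    linarith
  · intro i v
    rw [map_smul, inner_smul_left, inner_smul_left, hμ2]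
    have h0 : μ i ≠ 0 := (hμpos i).ne'
    simp only [conj_trivial]
    field_simp
    ring

end Pool.Agent.Y980.OP
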